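import Mathlib
set_option autoImplicit false
namespace Pool.Agent.KS6_96.MBG

abbrev Tb (I J K : ℕ) := Fin I → Fin J → Fin K → ℕ
abbrev Mz (I J K : ℕ) := Fin I → Fin J → Fin K → ℤ

def SM {I J K : ℕ} (u v : Tb I J K) : Prop :=
  (∀ i j, ∑ k, u i j k = ∑ k, v i j k) ∧ (∀ i k, ∑ j, u i j k = ∑ j, v i j k) ∧
    (∀ j k, ∑ i, u i j k = ∑ i, v i j k)

def Stp {I J K : ℕ} (B : Finset (Mz I J K)) (w w' : Tb I J K) : Prop :=
  ∃ m ∈ B, (∀ i j k, (w' i j k : ℤ) = (w i j k : ℤ) + m i j k) ∨
    (∀ i j k, (w' i j k : ℤ) = (w i j k : ℤ) - m i j k)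

def ZM {I J K : ℕ} (m : Mz I J K) : Prop :=
  (∀ i j, ∑ k, m i j k = 0) ∧ (∀ i k, ∑ j, m i j k = 0) ∧ (∀ j k, ∑ i, m i j k = 0)

def MB {I J K : ℕ} (B : Finset (Mz I J K)) : Prop :=
  (∀ m ∈ B, (∀ i j, ∑ k, m i j k = 0) ∧ (∀ i k, ∑ j, m i j k = 0) ∧ (∀ j k, ∑ i, m i j k = 0)) ∧
  ∀ u v : Tb I J K, (∀ i j, ∑ k, u i j k = ∑ k, v i j k) →
    (∀ i k, ∑ j, u i j k = ∑ j, v i j k) → (∀ j k, ∑ i, u i j k = ∑ i, v i j k) →
    Relation.ReflTransGen (Stp B) u v

def mv {I J K : ℕ} (u v : Tb I J K) : Mz I J K := fun i j k => (v i j k : ℤ) - (u i j k : ℤ)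

theorem mv_zm {I J K : ℕ} {u v : Tb I J K} (h : SM u v) : ZM (mv u v) := by
  obtain ⟨h1, h2, h3⟩ := h
  refine ⟨fun i j => ?_, fun i k => ?_, fun j k => ?_⟩
  · have e : (∑ k, (u i j k : ℤ)) = ∑ k, (v i j k : ℤ) := by exact_mod_cast h1 i j
    simp only [mv, Finset.sum_sub_distrib, e, sub_self]
  · have e : (∑ j, (u i j k : ℤ)) = ∑ j, (v i j k : ℤ) := by exact_mod_cast h2 i k
    simp only [mv, Finset.sum_sub_distrib, e, sub_self]
  · have e : (∑ i, (u i j k : ℤ)) = ∑ i, (v i j k : ℤ) := by exact_mod_cast h3 j k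
    simp only [mv, Finset.sum_sub_distrib, e, sub_self]

theorem sm_of_add {I J K : ℕ} {u v : Tb I J K} {m : Mz I J K} (hm : ZM m)
    (h : ∀ i j k, (v i j k : ℤ) = (u i j k : ℤ) + m i j k) : SM u v := by
  obtain ⟨h1, h2, h3⟩ := hm
  refine ⟨fun i j => ?_, fun i k => ?_, fun j k => ?_⟩
  · have e : (∑ k, (v i j k : ℤ)) = ∑ k, (u i j k : ℤ) := by
      simp only [h, Finset.sum_add_distrib, h1, add_zero]
    exact_mod_cast e.symm
  · have e : (∑ j, (v i j k : ℤ)) = ∑ j, (u i j k : ℤ) := by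
      simp only [h, Finset.sum_add_distrib, h2, add_zero]
    exact_mod_cast e.symm
  · have e : (∑ i, (v i j k : ℤ)) = ∑ i, (u i j k : ℤ) := by
      simp only [h, Finset.sum_add_distrib, h3, add_zero]
    exact_mod_cast e.symm

theorem SM.symm' {I J K : ℕ} {u v : Tb I J K} (h : SM u v) : SM v u :=
  ⟨fun i j => (h.1 i j).symm, fun i k => (h.2.1 i k).symm, fun j k => (h.2.2 j k).symm⟩

theorem SM.trans' {I J K : ℕ} {u v w : Tb I J K} (h : SM u v) (h' : SM v w) : SM u w :=
  ⟨fun i j => (h.1 i j).trans (h'.1 i j), fun i k => (h.2.1 i k).trans (h'.2.1 i k),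
    fun j k => (h.2.2 j k).trans (h'.2.2 j k)⟩

theorem stp_symm {I J K : ℕ} (B : Finset (Mz I J K)) {u v : Tb I J K} (huv : Stp B u v) :
    Stp B v u := by
  obtain ⟨m, hm, h | h⟩ := huv
  · exact ⟨m, hm, Or.inr fun i j k => by rw [h i j k]; ring⟩
  · exact ⟨m, hm, Or.inl fun i j k => by rw [h i j k]; ring⟩

theorem rtg_symm {I J K : ℕ} (B : Finset (Mz I J K)) {u v : Tb I J K}
    (h : Relation.ReflTransGen (Stp B) u v) : Relation.ReflTransGen (Stp B) v u := by
  induction h with
  | refl => exact Relation.ReflTransGen.refl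
  | tail _ hbc ih => exact Relation.ReflTransGen.head (stp_symm B hbc) ih

theorem rtg_add {I J K : ℕ} (B : Finset (Mz I J K)) {u v : Tb I J K} (q : Tb I J K)
    (h : Relation.ReflTransGen (Stp B) u v) :
    Relation.ReflTransGen (Stp B) (u + q) (v + q) := by
  induction h with
  | refl => exact Relation.ReflTransGen.refl
  | tail _ hbc ih =>
    refine Relation.ReflTransGen.tail ih ?_
    obtain ⟨m, hm, h | h⟩ := hbc
    · refine ⟨m, hm, Or.inl fun i j k => ?_⟩
      simp only [Pi.add_apply, Nat.cast_add, h i j k]; ring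
    · refine ⟨m, hm, Or.inr fun i j k => ?_⟩
      simp only [Pi.add_apply, Nat.cast_add, h i j k]; ring

theorem stp_add {I J K : ℕ} (B : Finset (Mz I J K)) {u v : Tb I J K} (q : Tb I J K)
    (h : Stp B u v) : Stp B (u + q) (v + q) := by
  obtain ⟨m, hm, h | h⟩ := h
  · refine ⟨m, hm, Or.inl fun i j k => ?_⟩
    simp only [Pi.add_apply, Nat.cast_add, h i j k]; ring
  · refine ⟨m, hm, Or.inr fun i j k => ?_⟩
    simp only [Pi.add_apply, Nat.cast_add, h i j k]; ring

theorem sm_cancel {I J K : ℕ} {a b p q : Tb I J K} (h : SM (a + p) (b + q)) (h' : SM p q) :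
    SM a b := by
  obtain ⟨h1, h2, h3⟩ := h
  obtain ⟨g1, g2, g3⟩ := h'
  refine ⟨fun i j => ?_, fun i k => ?_, fun j k => ?_⟩
  · have e := h1 i j
    simp only [Pi.add_apply, Finset.sum_add_distrib, g1] at e
    omega
  · have e := h2 i k
    simp only [Pi.add_apply, Finset.sum_add_distrib, g2] at e
    omega
  · have e := h3 j k
    simp only [Pi.add_apply, Finset.sum_add_distrib, g3] at e
    omega

theorem total_pos {I J K : ℕ} {p q : Tb I J K} (hne : p ≠ q) (h : SM p q) :
    0 < ∑ i, ∑ j, ∑ k, p i j k := by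
  rw [Nat.pos_iff_ne_zero]
  intro h0
  apply hne
  have hp : ∀ i j, ∑ k, p i j k = 0 := by
    intro i j
    have := (Finset.sum_eq_zero_iff.1 h0) i (Finset.mem_univ _)
    exact (Finset.sum_eq_zero_iff.1 this) j (Finset.mem_univ _)
  funext i j k
  have e1 := (Finset.sum_eq_zero_iff.1 (hp i j)) k (Finset.mem_univ _)
  have e2 : ∑ k, q i j k = 0 := by rw [← h.1 i j]; exact hp i j
  have e3 := (Finset.sum_eq_zero_iff.1 e2) k (Finset.mem_univ _)
  rw [e1, e3]

theorem exists_MB (I J K : ℕ) : ∃ B : Finset (Mz I J K), MB B := by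
  classical
  let S : Set (Tb I J K × Tb I J K) := {p | p.1 ≠ p.2 ∧ SM p.1 p.2}
  have hfin : {p | Minimal (· ∈ S) p}.Finite :=
    WellQuasiOrderedLE.finite_of_isAntichain (setOfPred_minimal_antichain _)
  have main : ∀ (n : ℕ) (u v : Tb I J K), ∑ i, ∑ j, ∑ k, u i j k = n → SM u v →
      Relation.ReflTransGen (Stp (hfin.toFinset.image (fun p => mv p.1 p.2))) u v := by
    intro n
    induction n using Nat.strong_induction_on with
    | _ n ih =>
      intro u v hn huv
      by_cases hne : u = v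
      · rw [hne]
      · obtain ⟨⟨p, q⟩, hle, hmin⟩ :=
          exists_minimal_le_of_wellFoundedLT (· ∈ S) (u, v) ⟨hne, huv⟩
        have hpu : p ≤ u := hle.1
        have hqv : q ≤ v := hle.2
        obtain ⟨a, rfl⟩ : ∃ a, u = a + p := ⟨u - p, (tsub_add_cancel_of_le hpu).symm⟩
        obtain ⟨b, rfl⟩ : ∃ b, v = b + q := ⟨v - q, (tsub_add_cancel_of_le hqv).symm⟩
        have hpq : SM p q := hmin.prop.2
        have hpqne : p ≠ q := hmin.prop.1
        have hab := sm_cancel huv hpq
        have hpos := total_pos hpqne hpq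
        have hlt : ∑ i, ∑ j, ∑ k, a i j k < n := by
          have : ∑ i, ∑ j, ∑ k, (a + p) i j k =
              ∑ i, ∑ j, ∑ k, a i j k + ∑ i, ∑ j, ∑ k, p i j k := by
            simp only [Pi.add_apply, Finset.sum_add_distrib]
          omega
        have hpath := ih _ hlt a b rfl hab
        have hlift := rtg_add _ q hpath
        refine Relation.ReflTransGen.head ?_ hlift
        refine ⟨mv p q, ?_, Or.inl fun i j k => ?_⟩
        · rw [Finset.mem_image]
          exact ⟨(p, q), by simpa using hmin, rfl⟩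
        · simp only [Pi.add_apply, Nat.cast_add, mv]; ring
  refine ⟨hfin.toFinset.image (fun p => mv p.1 p.2), ?_, ?_⟩
  · intro m hm
    rw [Finset.mem_image] at hm
    obtain ⟨p, hp, rfl⟩ := hm
    have hp' : Minimal (· ∈ S) p := by simpa using hp
    exact mv_zm hp'.prop.2
  · intro u v h1 h2 h3
    exact main _ u v rfl ⟨h1, h2, h3⟩

theorem exists_min {I J K : ℕ} (B : Finset (Mz I J K)) (hB : MB B) :
    ∃ B1, B1 ⊆ B ∧ MB B1 ∧ ∀ C, C ⊂ B1 → ¬ MB C := by
  obtain ⟨m, hm, hmin⟩ := exists_minimal_le_of_wellFoundedLT MB B hB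
  exact ⟨m, hm, hmin.prop, fun C hC h => hC.2 (hmin.2 h hC.1)⟩

theorem first_step {α : Type*} {r : α → α → Prop} {a b : α}
    (h : Relation.ReflTransGen r a b) (hne : a ≠ b) : ∃ c, c ≠ a ∧ r a c := by
  induction h using Relation.ReflTransGen.head_induction_on with
  | refl => exact absurd rfl hne
  | head hac hcb ih =>
    rename_i a c
    by_cases hc : c = a
    · subst hc; exact ih hne
    · exact ⟨c, hc, hac⟩

theorem exch {I J K : ℕ} (B : Finset (Mz I J K)) (hB : MB B) (t tj tk : Tb I J K)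
    (htj : SM t tj) (htk : SM t tk) (hj : ∀ i j k, tj i j k = 0 ∨ t i j k = 0)
    (hk : ∀ i j k, tk i j k = 0 ∨ t i j k = 0) (hjk : tj ≠ tk)
    (i0 : Fin I) (j0 : Fin J) (k0 : Fin K) (h0 : 0 < t i0 j0 k0) :
    ∃ B' : Finset (Mz I J K), MB B' ∧ mv t tj ∉ B' ∧ -(mv t tj) ∉ B' := by
  classical
  set B' : Finset (Mz I J K) := ((B.erase (mv t tj)).erase (-(mv t tj))) ∪ {mv t tk, mv tj tk}
    with hB'
  have hj0 : tj i0 j0 k0 = 0 := by rcases hj i0 j0 k0 with h | h <;> omega
  have hk0 : tk i0 j0 k0 = 0 := by rcases hk i0 j0 k0 with h | h <;> omega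
  have n1 : mv t tj ≠ mv t tk := by
    intro h; apply hjk; funext i j k
    have := congrFun (congrFun (congrFun h i) j) k
    simp only [mv] at this; omega
  have n2 : mv t tj ≠ mv tj tk := by
    intro h
    have := congrFun (congrFun (congrFun h i0) j0) k0
    simp only [mv, hj0, hk0] at this; omega
  have n3 : -(mv t tj) ≠ mv t tk := by
    intro h
    have := congrFun (congrFun (congrFun h i0) j0) k0
    simp only [mv, hj0, hk0, Pi.neg_apply] at this; omega
  have n4 : -(mv t tj) ≠ mv tj tk := by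
    intro h
    have := congrFun (congrFun (congrFun h i0) j0) k0
    simp only [mv, hj0, hk0, Pi.neg_apply] at this; omega
  have mem1 : mv t tk ∈ B' := by simp [hB']
  have mem2 : mv tj tk ∈ B' := by simp [hB']
  have two : ∀ w w' : Tb I J K, (∀ i j k, (w' i j k : ℤ) = (w i j k : ℤ) + mv t tj i j k) →
      Relation.ReflTransGen (Stp B') w w' := by
    intro w w' h
    have hge : ∀ i j k, t i j k ≤ w i j k := by
      intro i j k
      have e := h i j k
      simp only [mv] at e
      rcases hj i j k with h | h <;> omega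
    refine Relation.ReflTransGen.head (b := fun i j k => w i j k - t i j k + tk i j k) ?_
      (Relation.ReflTransGen.single ?_)
    · refine ⟨mv t tk, mem1, Or.inl fun i j k => ?_⟩
      have := hge i j k
      simp only [mv]
      omega
    · refine ⟨mv tj tk, mem2, Or.inr fun i j k => ?_⟩
      have := hge i j k
      have e := h i j k
      simp only [mv] at e ⊢
      omega
  have onestep : ∀ w w' : Tb I J K, Stp B w w' → Relation.ReflTransGen (Stp B') w w' := by
    rintro w w' ⟨m, hm, h⟩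
    by_cases e1 : m = mv t tj
    · subst e1
      rcases h with h | h
      · exact two w w' h
      · exact rtg_symm B' (two w' w fun i j k => by rw [h i j k]; ring)
    · by_cases e2 : m = -(mv t tj)
      · subst e2
        rcases h with h | h
        · exact rtg_symm B'
            (two w' w fun i j k => by rw [h i j k]; simp only [Pi.neg_apply]; ring)
        · exact two w w' fun i j k => by rw [h i j k]; simp only [Pi.neg_apply]; ring
      · refine Relation.ReflTransGen.single ⟨m, ?_, h⟩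
        simp [hB', e1, e2, hm]
  refine ⟨B', ⟨?_, ?_⟩, ?_, ?_⟩
  · intro m hm
    simp only [hB', Finset.mem_union, Finset.mem_erase, Finset.mem_insert,
      Finset.mem_singleton] at hm
    rcases hm with ⟨_, _, hm⟩ | rfl | rfl
    · exact hB.1 m hm
    · exact mv_zm htk
    · exact mv_zm (htj.symm'.trans' htk)
  · intro u v h1 h2 h3
    have := hB.2 u v h1 h2 h3
    clear h1 h2 h3
    induction this with
    | refl => exact Relation.ReflTransGen.refl
    | tail _ hbc ih => exact ih.trans (onestep _ _ hbc)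
  · simp [hB', n1, n2]
  · simp [hB', n3, n4]

end Pool.Agent.KS6_96.MBG
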