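import Mathlib
import Pool.Agent.KS6_96.MB.Gen
set_option autoImplicit false
namespace Pool.Agent.KS6_96.MBW
open Pool.Agent.KS6_96.MBG

/-- Witness tables: `T1` is isolated (support-wise) in its fiber, which has two more members. -/
def Wit (I J K : ℕ) : Prop :=
  ∃ T1 T2 T3 : Tb I J K, SM T1 T2 ∧ SM T1 T3 ∧ (∀ i j k, T2 i j k = 0 ∨ T1 i j k = 0) ∧
    (∀ i j k, T3 i j k = 0 ∨ T1 i j k = 0) ∧ T2 ≠ T3 ∧
    (∀ w, SM T1 w → w = T1 ∨ ∀ i j k, w i j k = 0 ∨ T1 i j k = 0) ∧ ∃ i j k, 0 < T1 i j k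

/-- The uniqueness statement. -/
def UQ (I J K : ℕ) : Prop :=
  ∀ B B' : Finset (Mz I J K), (MB B ∧ ∀ C, C ⊂ B → ¬ MB C) → (MB B' ∧ ∀ C, C ⊂ B' → ¬ MB C) →
    ∀ m : Mz I J K, (m ∈ B ∨ -m ∈ B) ↔ (m ∈ B' ∨ -m ∈ B')

theorem not_uq {I J K : ℕ} (h : Wit I J K) : ¬ UQ I J K := by
  obtain ⟨T1, T2, T3, s2, s3, d2, d3, n23, key, i0, j0, k0, hpos⟩ := h
  intro H
  obtain ⟨B0, hB0⟩ := exists_MB I J K
  obtain ⟨B, _, hB, hBmin⟩ := exists_min B0 hB0
  have n12 : T1 ≠ T2 := by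
    intro h
    have := d2 i0 j0 k0
    rw [← h] at this
    omega
  have hp := hB.2 T1 T2 s2.1 s2.2.1 s2.2.2
  obtain ⟨tj, hne, hstep⟩ := first_step hp n12
  have hSM : SM T1 tj := by
    obtain ⟨m, hm, h | h⟩ := hstep
    · exact sm_of_add (hB.1 m hm) h
    · exact (sm_of_add (hB.1 m hm) (u := tj) (v := T1) fun i j k => by rw [h i j k]; ring).symm'
  have hd : ∀ i j k, tj i j k = 0 ∨ T1 i j k = 0 := by
    rcases key tj hSM with h | h
    · exact absurd h hne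
    · exact h
  obtain ⟨tk, hk1, hk2, hk3⟩ : ∃ tk, SM T1 tk ∧ (∀ i j k, tk i j k = 0 ∨ T1 i j k = 0) ∧
      tj ≠ tk := by
    by_cases h : tj = T2
    · exact ⟨T3, s3, d3, by rw [h]; exact n23⟩
    · exact ⟨T2, s2, d2, h⟩
  obtain ⟨B', hB', m1, m2⟩ := exch B hB T1 tj tk hSM hk1 hd hk2 hk3 i0 j0 k0 hpos
  obtain ⟨B'', hsub, hMB, hmin⟩ := exists_min B' hB'
  have hmain := H B B'' ⟨hB, hBmin⟩ ⟨hMB, hmin⟩ (mv T1 tj)
  have hin : mv T1 tj ∈ B ∨ -(mv T1 tj) ∈ B := by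
    obtain ⟨m, hm, h | h⟩ := hstep
    · left
      have : m = mv T1 tj := by
        funext i j k
        have := h i j k
        simp only [mv]
        omega
      rw [← this]; exact hm
    · right
      have : m = -(mv T1 tj) := by
        funext i j k
        have := h i j k
        simp only [mv, Pi.neg_apply]
        omega
      rw [← this]; exact hm
  rcases hmain.1 hin with h | h
  · exact m1 (hsub h)
  · exact m2 (hsub h)

/-! ### Padding by zero layers -/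

theorem sum_cast {K K' : ℕ} (hK : K ≤ K') (f : Fin K' → ℕ) (hf : ∀ k : Fin K', K ≤ (k : ℕ) → f k = 0) :
    ∑ k, f k = ∑ k : Fin K, f (Fin.castLE hK k) := by
  symm
  refine Fintype.sum_of_injective (Fin.castLE hK) (Fin.castLE_injective hK) _ _ (fun k hk => ?_)
    (fun _ => rfl)
  refine hf k ?_
  by_contra hlt
  exact hk ⟨⟨k, by omega⟩, by ext; rfl⟩

def pad {I J K : ℕ} (I' J' K' : ℕ) (T : Tb I J K) : Tb I' J' K' := fun i j k =>
  if h : (i : ℕ) < I ∧ (j : ℕ) < J ∧ (k : ℕ) < K then T ⟨i, h.1⟩ ⟨j, h.2.1⟩ ⟨k, h.2.2⟩ else 0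

theorem pad_out {I J K I' J' K' : ℕ} (T : Tb I J K) {i : Fin I'} {j : Fin J'} {k : Fin K'}
    (h : ¬ ((i : ℕ) < I ∧ (j : ℕ) < J ∧ (k : ℕ) < K)) : pad I' J' K' T i j k = 0 := by
  unfold pad; rw [dif_neg h]

theorem pad_in {I J K I' J' K' : ℕ} (hI : I ≤ I') (hJ : J ≤ J') (hK : K ≤ K') (T : Tb I J K)
    (i : Fin I) (j : Fin J) (k : Fin K) :
    pad I' J' K' T (Fin.castLE hI i) (Fin.castLE hJ j) (Fin.castLE hK k) = T i j k := by
  unfold pad
  have h : ((Fin.castLE hI i : Fin I') : ℕ) < I ∧ ((Fin.castLE hJ j : Fin J') : ℕ) < J ∧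
      ((Fin.castLE hK k : Fin K') : ℕ) < K := ⟨i.2, j.2, k.2⟩
  rw [dif_pos h]
  rfl

/-- A table vanishing outside the box is the padding of its restriction. -/
theorem pad_restr {I J K I' J' K' : ℕ} (hI : I ≤ I') (hJ : J ≤ J') (hK : K ≤ K') (w : Tb I' J' K')
    (h : ∀ (i : Fin I') (j : Fin J') (k : Fin K'),
      ¬ ((i : ℕ) < I ∧ (j : ℕ) < J ∧ (k : ℕ) < K) → w i j k = 0) :
    w = pad I' J' K' (fun (i : Fin I) (j : Fin J) (k : Fin K) =>
      w (Fin.castLE hI i) (Fin.castLE hJ j) (Fin.castLE hK k)) := by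
  funext i j k
  by_cases hc : (i : ℕ) < I ∧ (j : ℕ) < J ∧ (k : ℕ) < K
  · unfold pad
    rw [dif_pos hc]
    rfl
  · rw [h i j k hc, pad_out _ hc]

theorem sum3 {I J K I' J' K' : ℕ} (hI : I ≤ I') (hJ : J ≤ J') (hK : K ≤ K') (w : Tb I' J' K')
    (h : ∀ (i : Fin I') (j : Fin J') (k : Fin K'),
      ¬ ((i : ℕ) < I ∧ (j : ℕ) < J ∧ (k : ℕ) < K) → w i j k = 0) :
    (∀ i j, ∑ k, w (Fin.castLE hI i) (Fin.castLE hJ j) k =
      ∑ k, w (Fin.castLE hI i) (Fin.castLE hJ j) (Fin.castLE hK k)) ∧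
    (∀ i k, ∑ j, w (Fin.castLE hI i) j (Fin.castLE hK k) =
      ∑ j, w (Fin.castLE hI i) (Fin.castLE hJ j) (Fin.castLE hK k)) ∧
    (∀ j k, ∑ i, w i (Fin.castLE hJ j) (Fin.castLE hK k) =
      ∑ i, w (Fin.castLE hI i) (Fin.castLE hJ j) (Fin.castLE hK k)) := by
  refine ⟨fun i j => sum_cast hK _ fun k hk => h _ _ _ fun hc => absurd hc.2.2 (by omega),
    fun i k => sum_cast hJ _ fun j hj => h _ _ _ fun hc => absurd hc.2.1 (by omega),
    fun j k => sum_cast hI _ fun i hi => h _ _ _ fun hc => absurd hc.1 (by omega)⟩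

theorem pad_sm {I J K I' J' K' : ℕ} (hI : I ≤ I') (hJ : J ≤ J') (hK : K ≤ K') {T U : Tb I J K}
    (h : SM T U) : SM (pad I' J' K' T) (pad I' J' K' U) := by
  obtain ⟨t1, t2, t3⟩ := sum3 hI hJ hK (pad I' J' K' T) fun i j k hc => pad_out _ hc
  obtain ⟨u1, u2, u3⟩ := sum3 hI hJ hK (pad I' J' K' U) fun i j k hc => pad_out _ hc
  simp only [pad_in] at t1 t2 t3 u1 u2 u3
  refine ⟨fun i j => ?_, fun i k => ?_, fun j k => ?_⟩
  · by_cases hc : (i : ℕ) < I ∧ (j : ℕ) < J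
    · have e1 := t1 ⟨i, hc.1⟩ ⟨j, hc.2⟩
      have e2 := u1 ⟨i, hc.1⟩ ⟨j, hc.2⟩
      have ei : Fin.castLE hI ⟨i, hc.1⟩ = i := rfl
      have ej : Fin.castLE hJ ⟨j, hc.2⟩ = j := rfl
      rw [ei, ej] at e1 e2
      rw [e1, e2, h.1]
    · rw [Finset.sum_eq_zero fun k _ => pad_out T (by tauto),
        Finset.sum_eq_zero fun k _ => pad_out U (by tauto)]
  · by_cases hc : (i : ℕ) < I ∧ (k : ℕ) < K
    · have e1 := t2 ⟨i, hc.1⟩ ⟨k, hc.2⟩
      have e2 := u2 ⟨i, hc.1⟩ ⟨k, hc.2⟩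
      have ei : Fin.castLE hI ⟨i, hc.1⟩ = i := rfl
      have ej : Fin.castLE hK ⟨k, hc.2⟩ = k := rfl
      rw [ei, ej] at e1 e2
      rw [e1, e2, h.2.1]
    · rw [Finset.sum_eq_zero fun j _ => pad_out T (by tauto),
        Finset.sum_eq_zero fun j _ => pad_out U (by tauto)]
  · by_cases hc : (j : ℕ) < J ∧ (k : ℕ) < K
    · have e1 := t3 ⟨j, hc.1⟩ ⟨k, hc.2⟩
      have e2 := u3 ⟨j, hc.1⟩ ⟨k, hc.2⟩
      have ei : Fin.castLE hJ ⟨j, hc.1⟩ = j := rfl
      have ej : Fin.castLE hK ⟨k, hc.2⟩ = k := rfl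
      rw [ei, ej] at e1 e2
      rw [e1, e2, h.2.2]
    · rw [Finset.sum_eq_zero fun i _ => pad_out T (by tauto),
        Finset.sum_eq_zero fun i _ => pad_out U (by tauto)]

/-- Tables with the margins of a padded table vanish outside the box. -/
theorem vanish {I J K I' J' K' : ℕ} {T : Tb I J K} {w : Tb I' J' K'}
    (h : SM (pad I' J' K' T) w) (i : Fin I') (j : Fin J') (k : Fin K')
    (hc : ¬ ((i : ℕ) < I ∧ (j : ℕ) < J ∧ (k : ℕ) < K)) : w i j k = 0 := by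
  by_cases h1 : (i : ℕ) < I ∧ (j : ℕ) < J
  · have e := h.2.1 i k
    rw [Finset.sum_eq_zero fun j _ => pad_out T (by tauto)] at e
    exact Finset.sum_eq_zero_iff.1 e.symm j (Finset.mem_univ _)
  · have e := h.1 i j
    rw [Finset.sum_eq_zero fun k _ => pad_out T (by tauto)] at e
    exact Finset.sum_eq_zero_iff.1 e.symm k (Finset.mem_univ _)

theorem Wit.mono {I J K I' J' K' : ℕ} (h : Wit I J K) (hI : I ≤ I') (hJ : J ≤ J') (hK : K ≤ K') :
    Wit I' J' K' := by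
  obtain ⟨T1, T2, T3, s2, s3, d2, d3, n23, key, i0, j0, k0, hpos⟩ := h
  have hdis : ∀ U : Tb I J K, (∀ i j k, U i j k = 0 ∨ T1 i j k = 0) →
      ∀ i j k, pad I' J' K' U i j k = 0 ∨ pad I' J' K' T1 i j k = 0 := by
    intro U hU i j k
    by_cases hc : (i : ℕ) < I ∧ (j : ℕ) < J ∧ (k : ℕ) < K
    · unfold pad
      rw [dif_pos hc, dif_pos hc]
      exact hU _ _ _
    · left; exact pad_out _ hc
  refine ⟨pad I' J' K' T1, pad I' J' K' T2, pad I' J' K' T3, pad_sm hI hJ hK s2, pad_sm hI hJ hK s3,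
    hdis T2 d2, hdis T3 d3, ?_, ?_, Fin.castLE hI i0, Fin.castLE hJ j0, Fin.castLE hK k0, ?_⟩
  · intro e
    apply n23
    funext i j k
    rw [← pad_in hI hJ hK T2, ← pad_in hI hJ hK T3, e]
  · intro w hw
    have hv := fun i j k => vanish hw i j k
    have hr := pad_restr hI hJ hK w hv
    set w' : Tb I J K := fun i j k =>
      w (Fin.castLE hI i) (Fin.castLE hJ j) (Fin.castLE hK k) with hw'
    obtain ⟨a1, a2, a3⟩ := sum3 hI hJ hK w hv
    obtain ⟨t1, t2, t3⟩ := sum3 hI hJ hK (pad I' J' K' T1) fun i j k hc => pad_out _ hc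
    simp only [pad_in] at t1 t2 t3
    have hSM : SM T1 w' := by
      refine ⟨fun i j => ?_, fun i k => ?_, fun j k => ?_⟩
      · rw [← t1, hw.1, a1]
      · rw [← t2, hw.2.1, a2]
      · rw [← t3, hw.2.2, a3]
    rcases key w' hSM with h | h
    · left; rw [hr, h]
    · right
      rw [hr]
      exact hdis w' h
  · rw [pad_in]; exact hpos

/-! ### Permuting the axes -/

theorem Wit.swap12 {I J K : ℕ} (h : Wit I J K) : Wit J I K := by
  obtain ⟨T1, T2, T3, s2, s3, d2, d3, n23, key, i0, j0, k0, hpos⟩ := h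
  refine ⟨fun j i k => T1 i j k, fun j i k => T2 i j k, fun j i k => T3 i j k,
    ⟨fun j i => s2.1 i j, fun j k => s2.2.2 j k, fun i k => s2.2.1 i k⟩,
    ⟨fun j i => s3.1 i j, fun j k => s3.2.2 j k, fun i k => s3.2.1 i k⟩,
    fun j i k => d2 i j k, fun j i k => d3 i j k, ?_, ?_, j0, i0, k0, hpos⟩
  · intro e
    apply n23
    funext i j k
    exact congrFun (congrFun (congrFun e j) i) k
  · intro w hw
    rcases key (fun i j k => w j i k)
      ⟨fun i j => hw.1 j i, fun i k => hw.2.2 i k, fun j k => hw.2.1 j k⟩ with h | h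
    · left
      funext j i k
      exact congrFun (congrFun (congrFun h i) j) k
    · right
      exact fun j i k => h i j k

theorem Wit.swap23 {I J K : ℕ} (h : Wit I J K) : Wit I K J := by
  obtain ⟨T1, T2, T3, s2, s3, d2, d3, n23, key, i0, j0, k0, hpos⟩ := h
  refine ⟨fun i k j => T1 i j k, fun i k j => T2 i j k, fun i k j => T3 i j k,
    ⟨fun i k => s2.2.1 i k, fun i j => s2.1 i j, fun k j => s2.2.2 j k⟩,
    ⟨fun i k => s3.2.1 i k, fun i j => s3.1 i j, fun k j => s3.2.2 j k⟩,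
    fun i k j => d2 i j k, fun i k j => d3 i j k, ?_, ?_, i0, k0, j0, hpos⟩
  · intro e
    apply n23
    funext i j k
    exact congrFun (congrFun (congrFun e i) k) j
  · intro w hw
    rcases key (fun i j k => w i k j)
      ⟨fun i j => hw.2.1 i j, fun i k => hw.1 i k, fun j k => hw.2.2 k j⟩ with h | h
    · left
      funext i k j
      exact congrFun (congrFun (congrFun h i) j) k
    · right
      exact fun i k j => h i j k

end Pool.Agent.KS6_96.MBW
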