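import Mathlib
import Pool.Agent.KS6_96.MB.Wit
set_option autoImplicit false
namespace Pool.Agent.KS6_96.MBS
open Pool.Agent.KS6_96.MBG Pool.Agent.KS6_96.MBW

variable {n J K : ℕ}

/-- Entry of a list of lists. -/
def ent (M : List (List ℕ)) (j k : ℕ) : ℕ := (M.getD j []).getD k 0

/-- A list of the layers (numbered from one) of the units in cell `(j,k)`. -/
def lay (M : List (List (List ℕ))) (j k : ℕ) : List ℕ := (M.getD j []).getD k []

/-- The table with `lay M j k` as the list of layers of the units over the cell `(j,k)`. -/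
def tab (n J K : ℕ) (M : List (List (List ℕ))) : Tb n J K := fun i j k =>
  (lay M j k).countP fun a => Nat.beq a ((i : ℕ) + 1)

def cR (ch : List (Fin n × Fin J × Fin K)) (i : Fin n) (j : Fin J) : ℕ :=
  ch.countP fun t => Nat.beq t.1 i && Nat.beq t.2.1 j

def cC (ch : List (Fin n × Fin J × Fin K)) (i : Fin n) (k : Fin K) : ℕ :=
  ch.countP fun t => Nat.beq t.1 i && Nat.beq t.2.2 k

def cT (ch : List (Fin n × Fin J × Fin K)) (i : Fin n) (j : Fin J) (k : Fin K) : ℕ :=
  ch.countP fun t => Nat.beq t.1 i && (Nat.beq t.2.1 j && Nat.beq t.2.2 k)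

def cL (L : List (Fin J × Fin K)) (j : Fin J) (k : Fin K) : ℕ :=
  L.countP fun t => Nat.beq t.1 j && Nat.beq t.2 k

theorem beqf {m : ℕ} (a b : Fin m) : Nat.beq a b = decide (a = b) := by
  rw [Bool.eq_iff_iff, Nat.beq_eq, decide_eq_true_iff, Fin.ext_iff]

theorem cR_eq (ch : List (Fin n × Fin J × Fin K)) (i : Fin n) (j : Fin J) :
    cR ch i j = ∑ k, cT ch i j k := by
  induction ch with
  | nil => simp [cR, cT]
  | cons t ch ih =>
    have e : cR (t :: ch) i j = cR ch i j + if t.1 = i ∧ t.2.1 = j then 1 else 0 := by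
      unfold cR
      rw [List.countP_cons]
      simp only [beqf, Bool.and_eq_true, decide_eq_true_iff]
    have e' : ∀ k, cT (t :: ch) i j k =
        cT ch i j k + if k = t.2.2 then (if t.1 = i ∧ t.2.1 = j then 1 else 0) else 0 := by
      intro k
      unfold cT
      rw [List.countP_cons]
      simp only [beqf, Bool.and_eq_true, decide_eq_true_iff]
      congr 1
      by_cases h1 : k = t.2.2
      · rw [if_pos h1]
        have : t.2.2 = k := h1.symm
        simp only [this, and_true]
      · rw [if_neg h1, if_neg]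
        exact fun h => h1 h.2.2.symm
    rw [e, ih, Finset.sum_congr rfl fun k _ => e' k, Finset.sum_add_distrib,
      Finset.sum_ite_eq' Finset.univ t.2.2]
    simp

theorem cC_eq (ch : List (Fin n × Fin J × Fin K)) (i : Fin n) (k : Fin K) :
    cC ch i k = ∑ j, cT ch i j k := by
  induction ch with
  | nil => simp [cC, cT]
  | cons t ch ih =>
    have e : cC (t :: ch) i k = cC ch i k + if t.1 = i ∧ t.2.2 = k then 1 else 0 := by
      unfold cC
      rw [List.countP_cons]
      simp only [beqf, Bool.and_eq_true, decide_eq_true_iff]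
    have e' : ∀ j, cT (t :: ch) i j k =
        cT ch i j k + if j = t.2.1 then (if t.1 = i ∧ t.2.2 = k then 1 else 0) else 0 := by
      intro j
      unfold cT
      rw [List.countP_cons]
      simp only [beqf, Bool.and_eq_true, decide_eq_true_iff]
      congr 1
      by_cases h1 : j = t.2.1
      · rw [if_pos h1]
        have : t.2.1 = j := h1.symm
        simp only [this, true_and]
      · rw [if_neg h1, if_neg]
        exact fun h => h1 h.2.1.symm
    rw [e, ih, Finset.sum_congr rfl fun k _ => e' k, Finset.sum_add_distrib,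
      Finset.sum_ite_eq' Finset.univ t.2.1]
    simp

def search (R C : List (List ℕ)) (fin : List (Fin n × Fin J × Fin K) → Bool) :
    List (Fin J × Fin K) → List (Fin n × Fin J × Fin K) → Bool
  | [], ch => fin ch
  | p :: L, ch => (List.finRange n).all fun i =>
      (! (Nat.blt (cR ch i p.1) (ent R i p.1) && Nat.blt (cC ch i p.2) (ent C i p.2))) ||
        search R C fin L ((i, p.1, p.2) :: ch)

theorem search_sound (R C : List (List ℕ)) (fin : List (Fin n × Fin J × Fin K) → Bool)
    (w : Tb n J K) (hR : ∀ i j, ∑ k, w i j k = ent R i j) (hC : ∀ i k, ∑ j, w i j k = ent C i k) :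
    ∀ (L : List (Fin J × Fin K)) (ch : List (Fin n × Fin J × Fin K)),
      (∀ i j k, cT ch i j k ≤ w i j k) →
      (∀ j k, ∑ i, cT ch i j k + cL L j k = ∑ i, w i j k) → search R C fin L ch = true →
      ∃ ch', fin ch' = true ∧ ∀ i j k, w i j k = cT ch' i j k := by
  intro L
  induction L with
  | nil =>
    intro ch h1 h2 h3
    refine ⟨ch, h3, fun i j k => ?_⟩
    have e : ∑ i, cT ch i j k = ∑ i, w i j k := by
      have := h2 j k
      simpa [cL] using this
    exact ((Finset.sum_eq_sum_iff_of_le fun i _ => h1 i j k).1 e i (Finset.mem_univ _)).symm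
  | cons p L ih =>
    intro ch h1 h2 h3
    obtain ⟨i, hi⟩ : ∃ i, cT ch i p.1 p.2 < w i p.1 p.2 := by
      by_contra hcon
      push Not at hcon
      have e := h2 p.1 p.2
      have e1 : cL (p :: L) p.1 p.2 = cL L p.1 p.2 + 1 := by
        unfold cL
        rw [List.countP_cons_of_pos]
        simp
      have e2 : ∑ i, w i p.1 p.2 ≤ ∑ i, cT ch i p.1 p.2 := Finset.sum_le_sum fun i _ => hcon i
      omega
    set ch2 : List (Fin n × Fin J × Fin K) := (i, p.1, p.2) :: ch with hch2
    have hc : ∀ i' j k, cT ch2 i' j k =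
        cT ch i' j k + if i = i' then (if p.1 = j ∧ p.2 = k then 1 else 0) else 0 := by
      intro i' j k
      unfold cT
      rw [hch2, List.countP_cons]
      simp only [beqf, Bool.and_eq_true, decide_eq_true_iff]
      congr 1
      by_cases h : i = i'
      · simp [h]
      · simp [h]
    have g1 : ∀ i j k, cT ch2 i j k ≤ w i j k := by
      intro i' j k
      rw [hc]
      by_cases h : i = i'
      · by_cases h' : p.1 = j ∧ p.2 = k
        · rw [if_pos h, if_pos h']
          obtain ⟨rfl, rfl⟩ := h'
          subst h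
          exact hi
        · rw [if_pos h, if_neg h']
          exact h1 _ _ _
      · rw [if_neg h]
        exact h1 _ _ _
    have g2 : ∀ j k, ∑ i, cT ch2 i j k + cL L j k = ∑ i, w i j k := by
      intro j k
      have e := h2 j k
      have e1 : cL (p :: L) j k = cL L j k + if p.1 = j ∧ p.2 = k then 1 else 0 := by
        unfold cL
        rw [List.countP_cons]
        simp only [beqf, Bool.and_eq_true, decide_eq_true_iff]
      rw [Finset.sum_congr rfl fun i' _ => hc i' j k, Finset.sum_add_distrib,
        Finset.sum_ite_eq Finset.univ i, if_pos (Finset.mem_univ _)]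
      omega
    have r1 : cR ch i p.1 < ent R i p.1 := by
      rw [← hR, cR_eq]
      exact Finset.sum_lt_sum (fun k _ => h1 i p.1 k) ⟨p.2, Finset.mem_univ _, hi⟩
    have r2 : cC ch i p.2 < ent C i p.2 := by
      rw [← hC, cC_eq]
      exact Finset.sum_lt_sum (fun j _ => h1 i j p.2) ⟨p.1, Finset.mem_univ _, hi⟩
    rw [search, List.all_eq_true] at h3
    have h7 := h3 i (List.mem_finRange i)
    have s1 : Nat.blt (cR ch i p.1) (ent R i p.1) = true := by
      rw [Nat.blt_eq]; exact r1
    have s2 : Nat.blt (cC ch i p.2) (ent C i p.2) = true := by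
      rw [Nat.blt_eq]; exact r2
    rw [s1, s2] at h7
    simp only [Bool.and_self, Bool.not_true, Bool.false_or] at h7
    exact ih ch2 g1 g2 h7

/-- Final test: the chosen triples are below the table, or avoid its support. -/
def fin (M : List (List (List ℕ))) (ch : List (Fin n × Fin J × Fin K)) : Bool :=
  (ch.all fun t => Nat.ble (cT ch t.1 t.2.1 t.2.2) (tab n J K M t.1 t.2.1 t.2.2)) ||
    ch.all fun t => Nat.beq (tab n J K M t.1 t.2.1 t.2.2) 0

theorem cT_pos {ch : List (Fin n × Fin J × Fin K)} {i : Fin n} {j : Fin J} {k : Fin K}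
    (h : 0 < cT ch i j k) : (i, j, k) ∈ ch := by
  unfold cT at h
  obtain ⟨t, ht, h2⟩ := List.countP_pos_iff.1 h
  simp only [beqf, Bool.and_eq_true, decide_eq_true_iff] at h2
  obtain ⟨rfl, rfl, rfl⟩ := h2
  exact ht

theorem key_of (R C : List (List ℕ)) (M : List (List (List ℕ))) (L : List (Fin J × Fin K))
    (hR : ∀ i j, ∑ k, tab n J K M i j k = ent R i j)
    (hC : ∀ i k, ∑ j, tab n J K M i j k = ent C i k)
    (hA : ∀ j k, cL L j k = ∑ i, tab n J K M i j k)
    (hs : search (n := n) R C (fin M) L [] = true) (w : Tb n J K) (hw : SM (tab n J K M) w) :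
    w = tab n J K M ∨ ∀ i j k, w i j k = 0 ∨ tab n J K M i j k = 0 := by
  obtain ⟨w1, w2, w3⟩ := hw
  obtain ⟨ch, c1, c2⟩ := search_sound R C (fin M) w (fun i j => by rw [← w1, hR])
    (fun i k => by rw [← w2, hC]) L [] (by simp [cT])
    (fun j k => by rw [hA, w3]; simp [cT]) hs
  unfold fin at c1
  rw [Bool.or_eq_true, List.all_eq_true, List.all_eq_true] at c1
  rcases c1 with c1 | c1
  · left
    have hle : ∀ i j k, w i j k ≤ tab n J K M i j k := by
      intro i j k
      by_cases h0 : w i j k = 0
      · rw [h0]; exact Nat.zero_le _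
      · have hm := cT_pos (ch := ch) (i := i) (j := j) (k := k) (by rw [← c2]; omega)
        have := c1 _ hm
        rw [Nat.ble_eq] at this
        rw [c2]
        exact this
    funext i j k
    exact (Finset.sum_eq_sum_iff_of_le fun i _ => hle i j k).1 (w3 j k).symm i (Finset.mem_univ _)
  · right
    intro i j k
    by_cases h0 : w i j k = 0
    · exact Or.inl h0
    · have hm := cT_pos (ch := ch) (i := i) (j := j) (k := k) (by rw [← c2]; omega)
      have := c1 _ hm
      rw [Nat.beq_eq] at this
      exact Or.inr this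

end Pool.Agent.KS6_96.MBS
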