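import Mathlib
import Pool.Agent.KS6_96.MB.Srch
set_option autoImplicit false
namespace Pool.Agent.KS6_96.MB3
open Pool.Agent.KS6_96.MBG Pool.Agent.KS6_96.MBW Pool.Agent.KS6_96.MBS

/-- The table `T1`: for each cell of the `7 x 10` base, the layers of its units. -/
def M1 : List (List (List ℕ)) := [[[2],[],[],[3],[],[],[],[2],[],[1]],
  [[],[2],[1],[],[],[3],[],[],[],[]],
  [[],[],[],[],[3],[2],[],[],[1],[]],
  [[],[],[],[],[1],[],[3],[],[],[2]],
  [[],[1],[],[2],[3],[],[],[],[],[]],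
  [[3],[],[],[],[1],[],[2],[3],[],[]],
  [[1],[],[3],[],[],[],[],[1],[2],[]]]

def M2 : List (List (List ℕ)) := [[[1],[],[],[2],[],[],[],[3],[],[2]],
  [[],[1],[3],[],[],[2],[],[],[],[]],
  [[],[],[],[],[1],[3],[],[],[2],[]],
  [[],[],[],[],[3],[],[2],[],[],[1]],
  [[],[2],[],[3],[1],[],[],[],[],[]],
  [[2],[],[],[],[3],[],[3],[1],[],[]],
  [[3],[],[1],[],[],[],[],[2],[1],[]]]

def M3 : List (List (List ℕ)) := [[[3],[],[],[2],[],[],[],[1],[],[2]],
  [[],[1],[3],[],[],[2],[],[],[],[]],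
  [[],[],[],[],[1],[3],[],[],[2],[]],
  [[],[],[],[],[3],[],[2],[],[],[1]],
  [[],[2],[],[3],[1],[],[],[],[],[]],
  [[1],[],[],[],[3],[],[3],[2],[],[]],
  [[2],[],[1],[],[],[],[],[3],[1],[]]]

def R : List (List ℕ) := [[1,1,1,1,1,1,2],
  [2,1,1,1,1,1,1],
  [1,1,1,1,1,2,1]]

def C : List (List ℕ) := [[1,1,1,0,2,0,0,1,1,1],
  [1,1,0,1,0,1,1,1,1,1],
  [1,0,1,1,2,1,1,1,0,0]]

def cells : List (Fin 7 × Fin 10) :=
  [(4,4), (4,1), (4,3), (1,1), (0,3), (1,2), (1,5), (2,5), (6,2), (2,4), (2,8), (3,4), (6,8), (5,4), (3,9), (3,6), (0,9), (5,6), (6,0), (6,7), (5,7), (5,0), (0,7), (0,0)]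

theorem hR : ∀ i j, ∑ k, tab 3 7 10 M1 i j k = ent R i j := by decide +kernel
theorem hC : ∀ i k, ∑ j, tab 3 7 10 M1 i j k = ent C i k := by decide +kernel
theorem hA : ∀ j k, cL cells j k = ∑ i, tab 3 7 10 M1 i j k := by decide +kernel
theorem hs : search (n := 3) R C (fin M1) cells [] = true := by decide +kernel
theorem sm2 : SM (tab 3 7 10 M1) (tab 3 7 10 M2) :=
  ⟨by decide +kernel, by decide +kernel, by decide +kernel⟩
theorem sm3 : SM (tab 3 7 10 M1) (tab 3 7 10 M3) :=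
  ⟨by decide +kernel, by decide +kernel, by decide +kernel⟩

theorem wit : Wit 3 7 10 := by
  refine ⟨tab 3 7 10 M1, tab 3 7 10 M2, tab 3 7 10 M3, sm2, sm3, by decide +kernel,
    by decide +kernel, fun e => ?_, fun w hw => key_of R C M1 cells hR hC hA hs w hw,
    1, 0, 0, by decide +kernel⟩
  have := congrFun (congrFun (congrFun e 2) 6) 7
  exact absurd this (by decide +kernel)

end Pool.Agent.KS6_96.MB3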