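import Mathlib
import Pool.Agent.KS6_96.MB.Srch
set_option autoImplicit false
namespace Pool.Agent.KS6_96.MB4
open Pool.Agent.KS6_96.MBG Pool.Agent.KS6_96.MBW Pool.Agent.KS6_96.MBS

/-- The table `T1`: for each cell of the `5 x 10` base, the layers of its units. -/
def M1 : List (List (List ℕ)) := [[[1],[1],[],[2],[3],[],[],[4],[],[]],
  [[2],[2],[4],[],[],[],[],[1],[],[3]],
  [[3],[3],[2],[],[],[4],[1],[],[],[]],
  [[],[],[],[],[],[],[3],[],[1],[2]],
  [[],[],[],[4],[1],[3],[],[],[2],[]]]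

def M2 : List (List (List ℕ)) := [[[2],[3],[],[4],[1],[],[],[1],[],[]],
  [[3],[1],[2],[],[],[],[],[4],[],[2]],
  [[1],[2],[4],[],[],[3],[3],[],[],[]],
  [[],[],[],[],[],[],[1],[],[2],[3]],
  [[],[],[],[2],[3],[4],[],[],[1],[]]]

def M3 : List (List (List ℕ)) := [[[3],[2],[],[4],[1],[],[],[1],[],[]],
  [[1],[3],[2],[],[],[],[],[4],[],[2]],
  [[2],[1],[4],[],[],[3],[3],[],[],[]],
  [[],[],[],[],[],[],[1],[],[2],[3]],
  [[],[],[],[2],[3],[4],[],[],[1],[]]]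

def R : List (List ℕ) := [[2,1,1,1,1],
  [1,2,1,1,1],
  [1,1,2,1,1],
  [1,1,1,0,1]]

def C : List (List ℕ) := [[1,1,0,0,1,0,1,1,1,0],
  [1,1,1,1,0,0,0,0,1,1],
  [1,1,0,0,1,1,1,0,0,1],
  [0,0,1,1,0,1,0,1,0,0]]

def cells : List (Fin 5 × Fin 10) :=
  [(4,8), (3,8), (3,9), (3,6), (2,6), (1,9), (4,4), (0,4), (4,5), (4,3), (2,5), (0,3), (2,2), (1,2), (1,7), (0,7), (1,0), (1,1), (2,0), (2,1), (0,1), (0,0)]

theorem hR : ∀ i j, ∑ k, tab 4 5 10 M1 i j k = ent R i j := by decide +kernel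
theorem hC : ∀ i k, ∑ j, tab 4 5 10 M1 i j k = ent C i k := by decide +kernel
theorem hA : ∀ j k, cL cells j k = ∑ i, tab 4 5 10 M1 i j k := by decide +kernel
theorem hs : search (n := 4) R C (fin M1) cells [] = true := by decide +kernel
theorem sm2 : SM (tab 4 5 10 M1) (tab 4 5 10 M2) :=
  ⟨by decide +kernel, by decide +kernel, by decide +kernel⟩
theorem sm3 : SM (tab 4 5 10 M1) (tab 4 5 10 M3) :=
  ⟨by decide +kernel, by decide +kernel, by decide +kernel⟩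

theorem wit : Wit 4 5 10 := by
  refine ⟨tab 4 5 10 M1, tab 4 5 10 M2, tab 4 5 10 M3, sm2, sm3, by decide +kernel,
    by decide +kernel, fun e => ?_, fun w hw => key_of R C M1 cells hR hC hA hs w hw,
    0, 0, 0, by decide +kernel⟩
  have := congrFun (congrFun (congrFun e 1) 2) 1
  exact absurd this (by decide +kernel)

end Pool.Agent.KS6_96.MB4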