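import Mathlib
import Pool.Agent.KS6_96.MB.Srch
set_option autoImplicit false
namespace Pool.Agent.KS6_96.MB46
open Pool.Agent.KS6_96.MBG Pool.Agent.KS6_96.MBW Pool.Agent.KS6_96.MBS

/-- The table `T1`: for each cell of the `6 x 8` base, the layers of its units. -/
def M1 : List (List (List ℕ)) := [[[1],[1],[],[],[3],[2],[],[]],
  [[2],[2],[4],[1],[],[],[3],[]],
  [[3],[3],[],[],[],[],[1],[2]],
  [[],[],[],[3],[4],[1],[],[]],
  [[],[],[],[2],[],[4],[],[3]],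
  [[],[],[2],[],[1],[],[4],[4]]]

def M2 : List (List (List ℕ)) := [[[2],[3],[],[],[1],[1],[],[]],
  [[3],[1],[2],[2],[],[],[4],[]],
  [[1],[2],[],[],[],[],[3],[3]],
  [[],[],[],[1],[3],[4],[],[]],
  [[],[],[],[3],[],[2],[],[4]],
  [[],[],[4],[],[4],[],[1],[2]]]

def M3 : List (List (List ℕ)) := [[[3],[2],[],[],[1],[1],[],[]],
  [[1],[3],[2],[2],[],[],[4],[]],
  [[2],[1],[],[],[],[],[3],[3]],
  [[],[],[],[1],[3],[4],[],[]],
  [[],[],[],[3],[],[2],[],[4]],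
  [[],[],[4],[],[4],[],[1],[2]]]

def R : List (List ℕ) := [[2,1,1,1,0,1],
  [1,2,1,0,1,1],
  [1,1,2,1,1,0],
  [0,1,0,1,1,2]]

def C : List (List ℕ) := [[1,1,0,1,1,1,1,0],
  [1,1,1,1,0,1,0,1],
  [1,1,0,1,1,0,1,1],
  [0,0,1,0,1,1,1,1]]

def cells : List (Fin 6 × Fin 8) :=
  [(4,3), (4,5), (4,7), (3,5), (3,3), (1,3), (3,4), (0,5), (0,4), (5,4), (5,7), (2,7), (5,2), (5,6), (1,2), (2,6), (1,6), (1,1), (1,0), (0,0), (0,1), (2,1), (2,0)]

theorem hR : ∀ i j, ∑ k, tab 4 6 8 M1 i j k = ent R i j := by decide +kernel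
theorem hC : ∀ i k, ∑ j, tab 4 6 8 M1 i j k = ent C i k := by decide +kernel
theorem hA : ∀ j k, cL cells j k = ∑ i, tab 4 6 8 M1 i j k := by decide +kernel
theorem hs : search (n := 4) R C (fin M1) cells [] = true := by decide +kernel
theorem sm2 : SM (tab 4 6 8 M1) (tab 4 6 8 M2) :=
  ⟨by decide +kernel, by decide +kernel, by decide +kernel⟩
theorem sm3 : SM (tab 4 6 8 M1) (tab 4 6 8 M3) :=
  ⟨by decide +kernel, by decide +kernel, by decide +kernel⟩

theorem wit : Wit 4 6 8 := by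
  refine ⟨tab 4 6 8 M1, tab 4 6 8 M2, tab 4 6 8 M3, sm2, sm3, by decide +kernel,
    by decide +kernel, fun e => ?_, fun w hw => key_of R C M1 cells hR hC hA hs w hw,
    0, 0, 0, by decide +kernel⟩
  have := congrFun (congrFun (congrFun e 1) 2) 1
  exact absurd this (by decide +kernel)

end Pool.Agent.KS6_96.MB46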