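import Mathlib
import Pool.Agent.KS6_96.MB.Srch
set_option autoImplicit false
namespace Pool.Agent.KS6_96.MB5
open Pool.Agent.KS6_96.MBG Pool.Agent.KS6_96.MBW Pool.Agent.KS6_96.MBS

/-- The table `T1`: for each cell of the `5 x 6` base, the layers of its units. -/
def M1 : List (List (List ℕ)) := [[[4],[3],[2],[],[1],[]],
  [[2],[5],[],[],[3],[]],
  [[],[],[5],[4],[2],[3]],
  [[],[],[3],[2],[],[1]],
  [[5],[1],[4],[1],[4],[5]]]

def M2 : List (List (List ℕ)) := [[[2],[1],[3],[],[4],[]],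
  [[5],[3],[],[],[2],[]],
  [[],[],[4],[2],[3],[5]],
  [[],[],[2],[1],[],[3]],
  [[4],[5],[5],[4],[1],[1]]]

def M3 : List (List (List ℕ)) := [[[2],[1],[4],[],[3],[]],
  [[5],[3],[],[],[2],[]],
  [[],[],[3],[2],[4],[5]],
  [[],[],[2],[1],[],[3]],
  [[4],[5],[5],[4],[1],[1]]]

def R : List (List ℕ) := [[1,0,0,1,2],
  [1,1,1,1,0],
  [1,1,1,1,0],
  [1,0,1,0,2],
  [0,1,1,0,2]]

def C : List (List ℕ) := [[0,1,0,1,1,1],
  [1,0,1,1,1,0],
  [0,1,1,0,1,1],
  [1,0,1,1,1,0],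
  [1,1,1,0,0,1]]

def cells : List (Fin 5 × Fin 6) :=
  [(4,1), (0,1), (1,1), (1,4), (1,0), (0,0), (4,0), (0,2), (0,4), (2,4), (4,4), (2,3), (3,2), (3,3), (4,3), (3,5), (2,5), (4,5), (2,2), (4,2)]

theorem hR : ∀ i j, ∑ k, tab 5 5 6 M1 i j k = ent R i j := by decide +kernel
theorem hC : ∀ i k, ∑ j, tab 5 5 6 M1 i j k = ent C i k := by decide +kernel
theorem hA : ∀ j k, cL cells j k = ∑ i, tab 5 5 6 M1 i j k := by decide +kernel
theorem hs : search (n := 5) R C (fin M1) cells [] = true := by decide +kernel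
theorem sm2 : SM (tab 5 5 6 M1) (tab 5 5 6 M2) :=
  ⟨by decide +kernel, by decide +kernel, by decide +kernel⟩
theorem sm3 : SM (tab 5 5 6 M1) (tab 5 5 6 M3) :=
  ⟨by decide +kernel, by decide +kernel, by decide +kernel⟩

theorem wit : Wit 5 5 6 := by
  refine ⟨tab 5 5 6 M1, tab 5 5 6 M2, tab 5 5 6 M3, sm2, sm3, by decide +kernel,
    by decide +kernel, fun e => ?_, fun w hw => key_of R C M1 cells hR hC hA hs w hw,
    3, 0, 0, by decide +kernel⟩
  have := congrFun (congrFun (congrFun e 3) 2) 4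
  exact absurd this (by decide +kernel)

end Pool.Agent.KS6_96.MB5
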