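import Mathlib
import Pool.Agent.KS6_96.MB.Gen
set_option autoImplicit false
namespace Pool.Agent.KS6_96.MBU
open Pool.Agent.KS6_96.MBG

/-- Positive part of an integer array. -/
def pp {I J K : ℕ} (m : Mz I J K) : Tb I J K := fun i j k => (m i j k).toNat
/-- Negative part of an integer array. -/
def np {I J K : ℕ} (m : Mz I J K) : Tb I J K := fun i j k => (-(m i j k)).toNat

def Ind {I J K : ℕ} (m : Mz I J K) : Prop :=
  ZM m ∧ m ≠ 0 ∧ ∀ w : Tb I J K, SM (pp m) w → w = pp m ∨ w = np m

theorem sm_pn {I J K : ℕ} {m : Mz I J K} (h : ZM m) : SM (np m) (pp m) := by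
  refine sm_of_add h fun i j k => ?_
  simp only [pp, np]; omega

/-- Indispensable moves lie in every Markov basis up to sign. -/
theorem ind_mem {I J K : ℕ} {m : Mz I J K} (h : Ind m) (B : Finset (Mz I J K)) (hB : MB B) :
    m ∈ B ∨ -m ∈ B := by
  obtain ⟨hz, hne, hw⟩ := h
  have hs : SM (pp m) (np m) := (sm_pn hz).symm'
  have hpn : pp m ≠ np m := by
    intro e
    apply hne
    funext i j k
    have := congrFun (congrFun (congrFun e i) j) k
    simp only [pp, np] at this
    simp only [Pi.zero_apply]; omega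
  obtain ⟨c, hc, m', hm', hst⟩ := first_step (hB.2 _ _ hs.1 hs.2.1 hs.2.2) hpn
  have hSM : SM (pp m) c := by
    rcases hst with h | h
    · exact sm_of_add (hB.1 m' hm') h
    · exact (sm_of_add (hB.1 m' hm') (u := c) (v := pp m) fun i j k => by rw [h i j k]; ring).symm'
  rcases hw c hSM with h | h
  · exact absurd h hc
  · subst h
    rcases hst with h | h
    · right
      have : m' = -m := by
        funext i j k
        have := h i j k
        simp only [pp, np] at this
        simp only [Pi.neg_apply]; omega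
      rw [← this]; exact hm'
    · left
      have : m' = m := by
        funext i j k
        have := h i j k
        simp only [pp, np] at this
        omega
      rw [← this]; exact hm'

/-- `a` is conformal to `z`: entrywise between `0` and `z`. -/
def Conf {I J K : ℕ} (a z : Mz I J K) : Prop :=
  ∀ i j k, (0 ≤ a i j k ∧ a i j k ≤ z i j k) ∨ (a i j k ≤ 0 ∧ z i j k ≤ a i j k)

def wt {I J K : ℕ} (a : Mz I J K) : ℕ := ∑ i, ∑ j, ∑ k, (a i j k).natAbs

theorem wt_lt {I J K : ℕ} {a b : Mz I J K} (h : ∀ i j k, (a i j k).natAbs ≤ (b i j k).natAbs)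
    (i0 : Fin I) (j0 : Fin J) (k0 : Fin K) (h0 : (a i0 j0 k0).natAbs < (b i0 j0 k0).natAbs) :
    wt a < wt b := by
  unfold wt
  refine Finset.sum_lt_sum (fun i _ => Finset.sum_le_sum fun j _ => Finset.sum_le_sum fun k _ => h i j k)
    ⟨i0, Finset.mem_univ _, Finset.sum_lt_sum (fun j _ => Finset.sum_le_sum fun k _ => h i0 j k)
      ⟨j0, Finset.mem_univ _, Finset.sum_lt_sum (fun k _ => h i0 j0 k) ⟨k0, Finset.mem_univ _, h0⟩⟩⟩

/-- A nonzero array with zero margins dominates a conformally minimal one. -/
theorem exists_minconf {I J K : ℕ} (z : Mz I J K) (hz : ZM z) (hne : z ≠ 0) :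
    ∃ m : Mz I J K, ZM m ∧ m ≠ 0 ∧ Conf m z ∧
      ∀ a : Mz I J K, ZM a → a ≠ 0 → Conf a m → a = m := by
  classical
  have hex : ∃ n : ℕ, ∃ m : Mz I J K, ZM m ∧ m ≠ 0 ∧ Conf m z ∧ wt m = n :=
    ⟨wt z, z, hz, hne, fun i j k => by
      rcases le_total 0 (z i j k) with h | h
      · exact Or.inl ⟨h, le_refl _⟩
      · exact Or.inr ⟨h, le_refl _⟩, rfl⟩
  obtain ⟨m, h1, h2, h3, h4⟩ := Nat.find_spec hex
  refine ⟨m, h1, h2, h3, fun a ha hane hc => ?_⟩
  by_contra hcon
  have hle : ∀ i j k, (a i j k).natAbs ≤ (m i j k).natAbs := fun i j k => by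
    rcases hc i j k with h | h <;> omega
  obtain ⟨i0, j0, k0, hijk⟩ : ∃ i j k, a i j k ≠ m i j k := by
    by_contra hall
    push Not at hall
    exact hcon (by funext i j k; exact hall i j k)
  have hlt := wt_lt hle i0 j0 k0 (by rcases hc i0 j0 k0 with h | h <;> omega)
  refine Nat.find_min hex (m := wt a) (by omega) ⟨a, ha, hane, fun i j k => ?_, rfl⟩
  have h := hc i j k
  have h' := h3 i j k
  omega

/-- Two numbers with `m + m' = 0`, `a + a' = 0` and `a = m⁺ - w`, `a' = m'⁺ - w'`. -/
theorem conf2 {m m' a a' : ℤ} {w w' : ℕ} (h : m + m' = 0) (h' : a + a' = 0)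
    (e : a = (m.toNat : ℤ) - w) (e' : a' = (m'.toNat : ℤ) - w') :
    ((0 ≤ a ∧ a ≤ m) ∨ (a ≤ 0 ∧ m ≤ a)) ∧ ((0 ≤ a' ∧ a' ≤ m') ∨ (a' ≤ 0 ∧ m' ≤ a')) := by
  omega

theorem conf_line {n : ℕ} (hn : n ≤ 2) (m : Fin n → ℤ) (w : Fin n → ℕ) (h : ∑ i, m i = 0)
    (h' : ∑ i, (((m i).toNat : ℤ) - (w i : ℤ)) = 0) (i : Fin n) :
    (0 ≤ ((m i).toNat : ℤ) - (w i : ℤ) ∧ ((m i).toNat : ℤ) - (w i : ℤ) ≤ m i) ∨
      (((m i).toNat : ℤ) - (w i : ℤ) ≤ 0 ∧ m i ≤ ((m i).toNat : ℤ) - (w i : ℤ)) := by
  interval_cases n
  · exact i.elim0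
  · simp only [Fin.sum_univ_one] at h h'
    have : i = 0 := Subsingleton.elim _ _
    subst this
    left
    omega
  · simp only [Fin.sum_univ_two] at h h'
    have := conf2 h h' rfl rfl
    fin_cases i
    · exact this.1
    · exact this.2

/-- With a side of length at most two a conformally minimal nonzero move is indispensable. -/
theorem ind_of_min {I J K : ℕ} (hI : I ≤ 2 ∨ J ≤ 2 ∨ K ≤ 2) {m : Mz I J K} (hz : ZM m) (hne : m ≠ 0)
    (hmin : ∀ a : Mz I J K, ZM a → a ≠ 0 → Conf a m → a = m) : Ind m := by
  refine ⟨hz, hne, fun w hw => ?_⟩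
  -- the array `a = pp m - w`
  set a : Mz I J K := fun i j k => ((m i j k).toNat : ℤ) - (w i j k : ℤ) with ha
  have haz : ZM a := mv_zm hw.symm'
  by_cases h0 : a = 0
  · left
    funext i j k
    have := congrFun (congrFun (congrFun h0 i) j) k
    simp only [ha, Pi.zero_apply] at this
    simp only [pp]
    omega
  · right
    have hc : Conf a m := by
      intro i j k
      rcases hI with hI | hI | hI
      · exact conf_line hI (fun i => m i j k) (fun i => w i j k) (hz.2.2 j k) (haz.2.2 j k) i
      · exact conf_line hI (fun j => m i j k) (fun j => w i j k) (hz.2.1 i k) (haz.2.1 i k) j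
      · exact conf_line hI (fun k => m i j k) (fun k => w i j k) (hz.1 i j) (haz.1 i j) k
    have he := hmin a haz h0 hc
    funext i j k
    have := congrFun (congrFun (congrFun he i) j) k
    simp only [ha] at this
    simp only [np]
    omega

theorem ind_MB {I J K : ℕ} (hI : I ≤ 2 ∨ J ≤ 2 ∨ K ≤ 2) (B C : Finset (Mz I J K)) (hB : MB B)
    (hCB : C ⊆ B) (hC : ∀ m ∈ B, Ind m → m ∈ C) : MB C := by
  refine ⟨fun m hm => hB.1 m (hCB hm), ?_⟩
  have main : ∀ (n : ℕ) (u v : Tb I J K), wt (mv u v) = n → SM u v →
      Relation.ReflTransGen (Stp C) u v := by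
    intro n
    induction n using Nat.strong_induction_on with
    | _ n ih =>
      intro u v hn huv
      by_cases hne : u = v
      · rw [hne]
      · have hz := mv_zm huv
        have hzne : mv u v ≠ 0 := by
          intro e
          apply hne
          funext i j k
          have := congrFun (congrFun (congrFun e i) j) k
          simp only [mv, Pi.zero_apply] at this
          omega
        obtain ⟨m, h1, h2, h3, h4⟩ := exists_minconf (mv u v) hz hzne
        have hind := ind_of_min hI h1 h2 h4
        have hmem := ind_mem hind B hB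
        have hind' : ∀ m' : Mz I J K, m' = -m → Ind m' := by
          rintro _ rfl
          refine ind_of_min hI ⟨fun i j => ?_, fun i k => ?_, fun j k => ?_⟩ (by simpa using h2) ?_
          · simp only [Pi.neg_apply, Finset.sum_neg_distrib, h1.1, neg_zero]
          · simp only [Pi.neg_apply, Finset.sum_neg_distrib, h1.2.1, neg_zero]
          · simp only [Pi.neg_apply, Finset.sum_neg_distrib, h1.2.2, neg_zero]
          · intro a ha hane hc
            have : -a = m := by
              refine h4 (-a) ⟨fun i j => ?_, fun i k => ?_, fun j k => ?_⟩ (by simpa using hane) ?_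
              · simp only [Pi.neg_apply, Finset.sum_neg_distrib, ha.1, neg_zero]
              · simp only [Pi.neg_apply, Finset.sum_neg_distrib, ha.2.1, neg_zero]
              · simp only [Pi.neg_apply, Finset.sum_neg_distrib, ha.2.2, neg_zero]
              · intro i j k
                have := hc i j k
                simp only [Pi.neg_apply] at this ⊢
                omega
            rw [← this, neg_neg]
        -- the intermediate table
        have hnn : ∀ i j k, 0 ≤ (u i j k : ℤ) + m i j k := by
          intro i j k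
          have := h3 i j k
          simp only [mv] at this
          omega
        set u' : Tb I J K := fun i j k => ((u i j k : ℤ) + m i j k).toNat with hu'
        have hu'e : ∀ i j k, (u' i j k : ℤ) = (u i j k : ℤ) + m i j k := by
          intro i j k
          have := hnn i j k
          simp only [hu']
          omega
        have hstep : Stp C u u' := by
          rcases hmem with h | h
          · exact ⟨m, hC m h hind, Or.inl hu'e⟩
          · refine ⟨-m, hC _ h (hind' _ rfl), Or.inr fun i j k => ?_⟩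
            rw [hu'e i j k]; simp only [Pi.neg_apply]; ring
        have hSM' : SM u u' := sm_of_add h1 hu'e
        obtain ⟨i0, j0, k0, hijk⟩ : ∃ i j k, m i j k ≠ 0 := by
          by_contra hall
          push Not at hall
          exact h2 (by funext i j k; exact hall i j k)
        have hlt : wt (mv u' v) < n := by
          rw [← hn]
          refine wt_lt (fun i j k => ?_) i0 j0 k0 ?_
          · have := h3 i j k
            have e := hu'e i j k
            simp only [mv] at this ⊢
            omega
          · have := h3 i0 j0 k0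
            have e := hu'e i0 j0 k0
            simp only [mv] at this ⊢
            omega
        exact Relation.ReflTransGen.head hstep (ih _ hlt u' v rfl (hSM'.symm'.trans' huv))
  exact fun u v h1 h2 h3 => main _ u v rfl ⟨h1, h2, h3⟩

/-- With a side of length at most two, two minimal Markov bases agree up to sign. -/
theorem unique_two {I J K : ℕ} (hI : I ≤ 2 ∨ J ≤ 2 ∨ K ≤ 2) (B B' : Finset (Mz I J K))
    (hB : MB B) (hBm : ∀ C, C ⊂ B → ¬ MB C) (hB' : MB B') (hBm' : ∀ C, C ⊂ B' → ¬ MB C)
    (m : Mz I J K) : (m ∈ B ∨ -m ∈ B) ↔ (m ∈ B' ∨ -m ∈ B') := by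
  classical
  have all : ∀ D : Finset (Mz I J K), MB D → (∀ C, C ⊂ D → ¬ MB C) → ∀ m ∈ D, Ind m := by
    intro D hD hDm m hm
    by_contra hcon
    refine hDm (D.filter Ind) ?_ ?_
    · rw [Finset.ssubset_iff_of_subset (Finset.filter_subset _ _)]
      exact ⟨m, hm, by simp [hcon]⟩
    · exact ind_MB hI D _ hD (Finset.filter_subset _ _) fun x hx hx' => by simp [hx, hx']
  have one : ∀ D D' : Finset (Mz I J K), MB D → (∀ C, C ⊂ D → ¬ MB C) → MB D' →
      (m ∈ D ∨ -m ∈ D) → (m ∈ D' ∨ -m ∈ D') := by
    intro D D' hD hDm hD' h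
    rcases h with h | h
    · exact ind_mem (all D hD hDm m h) D' hD'
    · rcases ind_mem (all D hD hDm (-m) h) D' hD' with h' | h'
      · exact Or.inr h'
      · rw [neg_neg] at h'; exact Or.inl h'
  exact ⟨one B B' hB hBm hB', one B' B hB' hBm' hB⟩

end Pool.Agent.KS6_96.MBU
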